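import Pool.Agent.H65.AD.TargetsB
import Pool.Agent.H12.PF.MR

/-!
# Board adm_modules: HQB
-/

set_option autoImplicit false

open MeasureTheory Set Filter
open scoped Real Topology

namespace Pool.Agent.H88.AD

open Pool.Agent.H31.CN Pool.Agent.H95.AD Pool.Agent.H50.CN Pool.Agent.H65.AD

/-- A product of factors in `[0, 1]` outside a finite set. -/
lemma tprod_bound {ι : Type} (f : ι → ℝ) (s : Finset ι) (h0 : ∀ i, 0 ≤ f i)
    (h1 : ∀ i ∈ s, 1 ≤ f i) (h2 : ∀ i, i ∉ s → f i ≤ 1) :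
    0 ≤ ∏' i, f i ∧ ∏' i, f i ≤ ∏ i ∈ s, f i := by
  classical
  have hs1 : 1 ≤ ∏ i ∈ s, f i := by
    calc (1 : ℝ) = ∏ _i ∈ s, (1 : ℝ) := by simp
      _ ≤ _ := Finset.prod_le_prod (fun _ _ => by norm_num) h1
  by_cases hm : Multipliable f
  · have ht : Tendsto (fun t : Finset ι => ∏ i ∈ t, f i) atTop (𝓝 (∏' i, f i)) := by
      have := hm.hasProd.sub_const 0
      simpa using this
    refine ⟨ge_of_tendsto ht (Eventually.of_forall fun t => Finset.prod_nonneg fun i _ => h0 i),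
      le_of_tendsto ht (Eventually.of_forall fun t => ?_)⟩
    rw [← Finset.prod_filter_mul_prod_filter_not t (fun i => i ∈ s)]
    have h3 : ∏ i ∈ t.filter (fun i => i ∉ s), f i ≤ 1 :=
      Finset.prod_le_one (fun i _ => h0 i) fun i hi => h2 i (Finset.mem_filter.1 hi).2
    have h4 : ∏ i ∈ t.filter (fun i => i ∈ s), f i ≤ ∏ i ∈ s, f i := by
      have h5 : t.filter (fun i => i ∈ s) ⊆ s := fun i hi => (Finset.mem_filter.1 hi).2
      rw [← Finset.prod_sdiff h5]
      refine le_mul_of_one_le_left (Finset.prod_nonneg fun i _ => h0 i) ?_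
      calc (1 : ℝ) = ∏ _i ∈ s \ t.filter (fun i => i ∈ s), (1 : ℝ) := by simp
        _ ≤ _ := Finset.prod_le_prod (fun _ _ => by norm_num)
          fun i hi => h1 i (Finset.mem_sdiff.1 hi).1
    calc (∏ i ∈ t.filter (fun i => i ∈ s), f i) * ∏ i ∈ t.filter (fun i => i ∉ s), f i
        ≤ (∏ i ∈ s, f i) * 1 := mul_le_mul h4 h3 (Finset.prod_nonneg fun i _ => h0 i) (by linarith)
      _ = _ := mul_one _
  · rw [tprod_eq_one_of_not_multipliable hm]
    exact ⟨by norm_num, hs1⟩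

/-- The upper bound of Mertens. -/
lemma mertens_prod : ∃ C : ℝ, 0 < C ∧ ∀ R : ℕ, 2 ≤ R →
    ∏ p ∈ (primorial R).primeFactors, (1 - 1 / (p : ℝ))⁻¹ ≤ C * Real.log R := by
  obtain ⟨C, hC⟩ := Pool.Agent.H12.PF.mr
  have hl2 : (0 : ℝ) < Real.log 2 := Real.log_pos (by norm_num)
  refine ⟨Real.exp (3 / 2 + C) / Real.log 2, by positivity, fun R hR => ?_⟩
  have hlR : (0 : ℝ) < Real.log R := Real.log_pos (by exact_mod_cast (by omega : 1 < R))
  have hset : (primorial R).primeFactors = (Finset.Icc 2 R).filter Nat.Prime := by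
    ext p
    rw [Nat.mem_primeFactors, Finset.mem_filter, Finset.mem_Icc]
    constructor
    · rintro ⟨hp, hd, -⟩
      exact ⟨⟨hp.two_le, hp.dvd_primorial_iff.1 hd⟩, hp⟩
    · rintro ⟨⟨-, h⟩, hp⟩
      exact ⟨hp, hp.dvd_primorial_iff.2 h, primorial_ne_zero R⟩
  -- the sum of the reciprocals
  have h1 := hC 2 R le_rfl hR
  have hins : (Finset.Icc 2 R).filter Nat.Prime =
      insert 2 ((Finset.Ioc 2 R).filter Nat.Prime) := by
    ext p
    simp only [Finset.mem_filter, Finset.mem_Icc, Finset.mem_insert, Finset.mem_Ioc]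
    constructor
    · rintro ⟨⟨h, h'⟩, hp⟩
      rcases h.eq_or_lt with h | h
      · exact Or.inl h.symm
      · exact Or.inr ⟨⟨h, h'⟩, hp⟩
    · rintro (rfl | ⟨⟨h3, h4⟩, hp⟩)
      · exact ⟨⟨le_rfl, hR⟩, Nat.prime_two⟩
      · exact ⟨⟨by omega, h4⟩, hp⟩
  have h2 : ∑ p ∈ (Finset.Icc 2 R).filter Nat.Prime, 1 / (p : ℝ) ≤
      1 / 2 + (Real.log (Real.log R / Real.log 2) + C) := by
    rw [hins, Finset.sum_insert (by simp)]
    push_cast at h1 ⊢
    linarith
  -- the telescoping sum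
  have h3 : ∀ n : ℕ, 2 ≤ n → ∑ m ∈ Finset.Icc 2 n, (1 / ((m : ℝ) - 1) - 1 / m) ≤ 1 - 1 / n := by
    intro n hn
    induction n, hn using Nat.le_induction with
    | base => norm_num
    | succ n hn ih =>
      rw [Finset.sum_Icc_succ_top (by omega)]
      have h5 : ((n + 1 : ℕ) : ℝ) - 1 = n := by push_cast; ring
      rw [h5]
      linarith
  have h4 : ∑ p ∈ (Finset.Icc 2 R).filter Nat.Prime, (1 / ((p : ℝ) - 1) - 1 / p) ≤ 1 := by
    refine (Finset.sum_le_sum_of_subset_of_nonneg (Finset.filter_subset _ _)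
      fun m hm _ => ?_).trans ((h3 R hR).trans ?_)
    · have h6 : (2 : ℝ) ≤ m := by exact_mod_cast (Finset.mem_Icc.1 hm).1
      have h7 : 1 / (m : ℝ) ≤ 1 / ((m : ℝ) - 1) :=
        one_div_le_one_div_of_le (by linarith) (by linarith)
      linarith
    · have : (0 : ℝ) ≤ 1 / (R : ℝ) := by positivity
      linarith
  rw [hset]
  have h5 : ∏ p ∈ (Finset.Icc 2 R).filter Nat.Prime, (1 - 1 / (p : ℝ))⁻¹ ≤
      ∏ p ∈ (Finset.Icc 2 R).filter Nat.Prime, Real.exp (1 / ((p : ℝ) - 1)) := by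
    refine Finset.prod_le_prod (fun p hp => ?_) fun p hp => ?_
    · have h6 : (2 : ℝ) ≤ p := by
        exact_mod_cast (Finset.mem_Icc.1 (Finset.mem_filter.1 hp).1).1
      have h7 : 1 / (p : ℝ) ≤ 1 / 2 := one_div_le_one_div_of_le (by norm_num) h6
      exact inv_nonneg.2 (by linarith)
    · have h6 : (2 : ℝ) ≤ p := by
        exact_mod_cast (Finset.mem_Icc.1 (Finset.mem_filter.1 hp).1).1
      have h8 := Real.add_one_le_exp (1 / ((p : ℝ) - 1))
      refine le_of_eq_of_le ?_ h8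
      have h9 : (p : ℝ) - 1 ≠ 0 := by linarith
      have h10 : (p : ℝ) ≠ 0 := by linarith
      have h11 : 1 - 1 / (p : ℝ) = ((p : ℝ) - 1) / p := by field_simp
      rw [h11, inv_div]
      field_simp
      ring
  refine h5.trans ?_
  rw [← Real.exp_sum]
  have h6 : ∑ p ∈ (Finset.Icc 2 R).filter Nat.Prime, 1 / ((p : ℝ) - 1) ≤
      (3 / 2 + C) + Real.log (Real.log R / Real.log 2) := by
    have h7 : ∑ p ∈ (Finset.Icc 2 R).filter Nat.Prime, 1 / ((p : ℝ) - 1) =
        ∑ p ∈ (Finset.Icc 2 R).filter Nat.Prime, (1 / ((p : ℝ) - 1) - 1 / p) +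
          ∑ p ∈ (Finset.Icc 2 R).filter Nat.Prime, 1 / (p : ℝ) := by
      rw [← Finset.sum_add_distrib]
      exact Finset.sum_congr rfl fun p _ => by ring
    rw [h7]
    linarith
  refine (Real.exp_le_exp.2 h6).trans_eq ?_
  rw [Real.exp_add, Real.exp_log (by positivity)]
  ring

theorem pf_HQB : T_HQB := by
  obtain ⟨C, hC, hC'⟩ := mertens_prod
  refine ⟨C, hC, fun R hR => ?_⟩
  have hd : ∀ p : Nat.Primes, (p : ℕ) ∣ primorial R ↔ (p : ℕ) ≤ R :=
    fun p => p.2.dvd_primorial_iff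
  set s : Finset Nat.Primes := (primorial R).primeFactors.subtype Nat.Prime with hs
  have hmem : ∀ p : Nat.Primes, p ∈ s ↔ (p : ℕ) ∣ primorial R := by
    intro p
    exact ⟨fun h => (Nat.mem_primeFactors.1 (Finset.mem_subtype.1 h)).2.1,
      fun h => Finset.mem_subtype.2 (Nat.mem_primeFactors.2 ⟨p.2, h, primorial_ne_zero R⟩)⟩
  set f : Nat.Primes → ℝ := fun p => if (p : ℕ) ∣ primorial R then
    (1 - 1 / ((p : ℕ) : ℝ))⁻¹ ^ 2 else
    (1 - 2 / ((p : ℕ) : ℝ)) * (1 - 1 / ((p : ℕ) : ℝ))⁻¹ ^ 2 with hf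
  have hp2 : ∀ p : Nat.Primes, (2 : ℝ) ≤ ((p : ℕ) : ℝ) := fun p => by exact_mod_cast p.2.two_le
  have hb := tprod_bound f s (fun p => ?_) (fun p hp => ?_) fun p hp => ?_
  · have hH : Hq (primorial R) = ∏' p, f p := rfl
    have hprod : ∏ p ∈ s, f p = ∏ p ∈ (primorial R).primeFactors, (1 - 1 / (p : ℝ))⁻¹ ^ 2 := by
      rw [← Finset.prod_subtype_of_mem (p := Nat.Prime) (fun p : ℕ => (1 - 1 / (p : ℝ))⁻¹ ^ 2)
        (fun p hp => (Nat.mem_primeFactors.1 hp).1)]
      refine Finset.prod_congr rfl fun p hp => ?_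
      rw [hf]
      simp only
      rw [if_pos ((hmem p).1 hp)]
    rw [← hH, hprod] at hb
    have h1 : Hq (primorial R) ^ 2 ≤
        (∏ p ∈ (primorial R).primeFactors, (1 - 1 / (p : ℝ))⁻¹ ^ 2) ^ 2 :=
      pow_le_pow_left₀ hb.1 hb.2 2
    have hpos : ∀ p ∈ (primorial R).primeFactors, 0 < 1 - 1 / (p : ℝ) := by
      intro p hp
      have h6 : (2 : ℝ) ≤ p := by exact_mod_cast (Nat.mem_primeFactors.1 hp).1.two_le
      have h7 : 1 / (p : ℝ) ≤ 1 / 2 := one_div_le_one_div_of_le (by norm_num) h6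
      linarith
    have h2 : 0 ≤ rho (primorial R) := Finset.prod_nonneg fun p hp => pow_nonneg (hpos p hp).le 3
    have hlR : (0 : ℝ) < Real.log R := Real.log_pos (by exact_mod_cast (by omega : 1 < R))
    calc rho (primorial R) * Hq (primorial R) ^ 2
        ≤ rho (primorial R) *
          (∏ p ∈ (primorial R).primeFactors, (1 - 1 / (p : ℝ))⁻¹ ^ 2) ^ 2 :=
          mul_le_mul_of_nonneg_left h1 h2
      _ = ∏ p ∈ (primorial R).primeFactors, (1 - 1 / (p : ℝ))⁻¹ := by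
          unfold rho
          rw [← Finset.prod_pow, ← Finset.prod_mul_distrib]
          refine Finset.prod_congr rfl fun p hp => ?_
          have := (hpos p hp).ne'
          field_simp
      _ ≤ C * Real.log R := hC' R hR
      _ ≤ C * (1 + Real.log R) := by nlinarith
  · have h1 := hp2 p
    have h2 : 1 / ((p : ℕ) : ℝ) ≤ 1 / 2 := one_div_le_one_div_of_le (by norm_num) h1
    have h3 : 2 / ((p : ℕ) : ℝ) ≤ 1 := by
      rw [div_le_one (by linarith)]
      exact h1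
    rw [hf]
    simp only
    split_ifs
    · positivity
    · exact mul_nonneg (by linarith) (by positivity)
  · have h1 := hp2 p
    have h2 : 1 / ((p : ℕ) : ℝ) ≤ 1 / 2 := one_div_le_one_div_of_le (by norm_num) h1
    rw [hf]
    simp only
    rw [if_pos ((hmem p).1 hp)]
    refine one_le_pow₀ ?_
    rw [one_le_inv₀ (by linarith)]
    have : (0 : ℝ) ≤ 1 / ((p : ℕ) : ℝ) := by positivity
    linarith
  · have h1 := hp2 p
    have h2 : 1 / ((p : ℕ) : ℝ) ≤ 1 / 2 := one_div_le_one_div_of_le (by norm_num) h1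
    have h4 : 2 / ((p : ℕ) : ℝ) = 2 * (1 / ((p : ℕ) : ℝ)) := by ring
    rw [hf]
    simp only
    rw [if_neg fun h => hp ((hmem p).2 h), h4]
    generalize 1 / ((p : ℕ) : ℝ) = x at *
    have h5 : 0 < 1 - x := by linarith
    rw [inv_pow, ← div_eq_mul_inv, div_le_one (by positivity)]
    nlinarith [sq_nonneg x]

end Pool.Agent.H88.AD
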