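import Pool.Agent.H65.AD.TargetsA
import Pool.Agent.H18.AD.USM

/-!
# Board adm_modules: UCV
-/

set_option autoImplicit false

open MeasureTheory Set Filter
open scoped Real

namespace Pool.Agent.H88.AD

open Pool.Agent.H31.CN Pool.Agent.H95.AD Pool.Agent.H50.CN Pool.Agent.H65.AD

lemma nrt_le (q : ℕ) (A B C : ℤ) : nrt q A B C ≤ q := by
  unfold nrt
  exact (Finset.card_filter_le _ _).trans_eq (Finset.card_range q)

lemma N1_le (p A : ℕ) (B C : ℤ) (e : ℕ) : N1 p A B C e ≤ (1 + p) ^ 2 := by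
  unfold N1
  have h := nrt_le p A B C
  have h1 : (if p ∣ A then 1 else 0) ≤ 1 := by split_ifs <;> simp
  have h2 : (if p ∣ e then nrt p A B C else 0) ≤ p := by split_ifs <;> simp [h]
  nlinarith

lemma N2_le (p A : ℕ) (B C : ℤ) (e : ℕ) : N2 p A B C e ≤ (1 + p) ^ 2 := by
  unfold N2
  have h1 : (if p ^ 2 ∣ A then 1 else 0) ≤ 1 := by split_ifs <;> simp
  have h2 : (if p ∣ A ∧ p ∣ e then nrt p ((A / p : ℕ) : ℤ) B (p * C) else 0) ≤ p := by
    split_ifs
    · exact nrt_le _ _ _ _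
    · simp
  have h3 : (if p ∣ e then nrt p A B C else 0) ≤ p := by
    split_ifs
    · exact nrt_le _ _ _ _
    · simp
  have h4 : (if p ^ 2 ∣ e then nrt (p ^ 2) A B C else 0) ≤ p ^ 2 := by
    split_ifs
    · exact nrt_le _ _ _ _
    · simp
  nlinarith

lemma Nw_le (m₁ m₂ A : ℕ) (B C : ℤ) (e : ℕ) :
    Nw m₁ m₂ A B C e ≤ ∏ p ∈ (m₁ * m₂).primeFactors, (1 + p) ^ 2 := by
  unfold Nw
  refine Finset.prod_le_prod' fun p _ => ?_
  split_ifs
  · exact N2_le _ _ _ _ _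
  · exact N1_le _ _ _ _ _

/-- The terms. -/
lemma utc_eq (hRTS : T_RTS) {D m₁ m₂ : ℕ} (hD : 3 < D) (hD4 : D % 4 = 3) (hDs : Squarefree D)
    (h1 : Squarefree m₁) (h2 : Squarefree m₂) (e A : ℕ) :
    Utc m₁ m₂ D e A = kM D (m₁ * m₂) e A *
      ∏ p ∈ (A * (m₁ * m₂)).primeFactors, loc (qT (chi p D) (tt p m₁ m₂)) p e A := by
  rcases Nat.eq_zero_or_pos A with hA | hA
  · subst hA
    unfold Utc kM
    simp
  rcases Nat.eq_zero_or_pos e with he | he
  · subst he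
    unfold Utc kM
    simp
  rw [← hRTS D m₁ m₂ e A hD hD4 hDs h1 h2 he hA, Finset.mul_sum]
  unfold Utc
  refine Finset.sum_congr rfl fun B _ => ?_
  have hA' : (0 : ℝ) < A := by exact_mod_cast hA
  have he' : (0 : ℝ) < e := by exact_mod_cast he
  have hD' : (0 : ℝ) < Real.sqrt D := Real.sqrt_pos.2 (by exact_mod_cast (by omega : 0 < D))
  have hs : Real.sqrt ((e : ℝ) ^ 2 * A) = e * Real.sqrt A := by
    rw [Real.sqrt_mul (by positivity), Real.sqrt_sq he'.le]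
  have hsA : 0 < Real.sqrt (A : ℝ) := Real.sqrt_pos.2 hA'
  have hss : Real.sqrt (A : ℝ) * Real.sqrt A = A := Real.mul_self_sqrt hA'.le
  unfold kM ct
  rw [hs, Real.log_div hD'.ne' hA'.ne', Nat.cast_mul]
  generalize Vk ((e : ℝ) ^ 2 * A / ((m₁ : ℝ) * m₂ * Real.sqrt D)) = V
  generalize Real.log (Real.sqrt D) - Real.log A + c0 = W
  generalize (Nw m₁ m₂ A B (((B ^ 2 + D) / (4 * A) : ℕ) : ℤ) e : ℝ) = N
  have h3 : V / (e * Real.sqrt A) * N * (W / Real.sqrt A) =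
      V / (e * (Real.sqrt A * Real.sqrt A)) * W * N := by
    field_simp
  rw [h3, hss]

lemma prod_le (hRTS : T_RTS) {D m₁ m₂ : ℕ} (hD : 3 < D) (hD4 : D % 4 = 3) (hDs : Squarefree D)
    (h1 : Squarefree m₁) (h2 : Squarefree m₂) {e A : ℕ} (he : 1 ≤ e) (hA : 1 ≤ A) :
    |∏ p ∈ (A * (m₁ * m₂)).primeFactors, loc (qT (chi p D) (tt p m₁ m₂)) p e A| ≤
      2 * (∏ p ∈ (m₁ * m₂).primeFactors, (1 + p) ^ 2 : ℕ) * A := by
  rw [← hRTS D m₁ m₂ e A hD hD4 hDs h1 h2 he hA, abs_of_nonneg (Finset.sum_nonneg fun B _ => by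
    positivity)]
  refine (Finset.sum_le_card_nsmul _ _ ((∏ p ∈ (m₁ * m₂).primeFactors, (1 + p) ^ 2 : ℕ) : ℝ)
    fun B _ => ?_).trans ?_
  · exact_mod_cast Nw_le _ _ _ _ _ _
  · rw [nsmul_eq_mul]
    have h3 : (((Finset.range (2 * A)).filter fun B => 4 * A ∣ B ^ 2 + D).card : ℝ) ≤ 2 * A := by
      exact_mod_cast (Finset.card_filter_le _ _).trans_eq (Finset.card_range (2 * A))
    have h4 : (0 : ℝ) ≤ ((∏ p ∈ (m₁ * m₂).primeFactors, (1 + p) ^ 2 : ℕ) : ℝ) := Nat.cast_nonneg _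
    nlinarith

theorem pf_UCV (hRTS : T_RTS) (hVK : T_VK) : T_UCV := by
  intro D m₁ m₂ hD hD4 hDs h1 h2
  have hU := Pool.Agent.H18.AD.pf_USM hVK (m₁ * m₂) D 2
    (Nat.one_le_iff_ne_zero.2 (mul_ne_zero h1.ne_zero h2.ne_zero)) (by omega)
  set K : ℝ := ((∏ p ∈ (m₁ * m₂).primeFactors, (1 + p) ^ 2 : ℕ) : ℝ) with hK
  have hK0 : 0 ≤ K := Nat.cast_nonneg _
  set c : ℝ := |Real.log (Real.sqrt D)| + |c0| with hc
  have hc0 : 0 ≤ c := by positivity
  have hsum : Summable fun y : ℕ × ℕ => kM D (m₁ * m₂) y.1 y.2 *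
      ∏ p ∈ (y.2 * (m₁ * m₂)).primeFactors, loc (qT (chi p D) (tt p m₁ m₂)) p y.1 y.2 := by
    refine Summable.of_norm_bounded (hU.mul_left ((c + 1) * (2 * K))) fun y => ?_
    obtain ⟨e, A⟩ := y
    simp only
    rcases Nat.eq_zero_or_pos A with hA | hA
    · subst hA
      unfold kM
      simp
    rcases Nat.eq_zero_or_pos e with he | he
    · subst he
      unfold kM
      simp
    have hA' : (1 : ℝ) ≤ A := by exact_mod_cast hA
    have he' : (0 : ℝ) < e := by exact_mod_cast he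
    have hA0 : (0 : ℝ) < A := by linarith
    have hs : Real.sqrt ((e : ℝ) ^ 2 * A) = e * Real.sqrt A := by
      rw [Real.sqrt_mul (by positivity), Real.sqrt_sq he'.le]
    have hsA : Real.sqrt (A : ℝ) ≤ A := by
      rw [Real.sqrt_le_left (by linarith)]
      nlinarith
    have hsA0 : 0 < Real.sqrt (A : ℝ) := Real.sqrt_pos.2 hA0
    rw [Real.norm_eq_abs, abs_mul]
    have hp := prod_le hRTS hD hD4 hDs h1 h2 he hA
    have hk : |kM D (m₁ * m₂) e A| ≤ |Vk ((e : ℝ) ^ 2 * A / (((m₁ * m₂ : ℕ) : ℝ) * Real.sqrt D))| /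
        Real.sqrt ((e : ℝ) ^ 2 * A) * ((c + 1) * A) := by
      unfold kM
      rw [abs_mul, abs_div, abs_of_pos (mul_pos he' hA0)]
      refine mul_le_mul ?_ ?_ (abs_nonneg _) (by positivity)
      · rw [hs]
        exact div_le_div_of_nonneg_left (abs_nonneg _) (by positivity)
          (mul_le_mul_of_nonneg_left hsA he'.le)
      · have hl : |Real.log A| ≤ A := by
          rw [abs_of_nonneg (Real.log_nonneg hA')]
          have := Real.log_le_sub_one_of_pos hA0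
          linarith
        calc |Real.log (Real.sqrt D) - Real.log A + c0|
            ≤ |Real.log (Real.sqrt D)| + |Real.log A| + |c0| :=
              (abs_add_le _ _).trans (by
                have := abs_sub (Real.log (Real.sqrt D)) (Real.log A)
                linarith)
          _ ≤ c + A := by rw [hc]; linarith
          _ ≤ (c + 1) * A := by nlinarith
    calc |kM D (m₁ * m₂) e A| * |∏ p ∈ (A * (m₁ * m₂)).primeFactors,
          loc (qT (chi p D) (tt p m₁ m₂)) p e A|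
        ≤ (|Vk ((e : ℝ) ^ 2 * A / (((m₁ * m₂ : ℕ) : ℝ) * Real.sqrt D))| /
            Real.sqrt ((e : ℝ) ^ 2 * A) * ((c + 1) * A)) * (2 * K * A) :=
          mul_le_mul hk hp (abs_nonneg _) (by positivity)
      _ = (c + 1) * (2 * K) * (|Vk ((e : ℝ) ^ 2 * A / (((m₁ * m₂ : ℕ) : ℝ) * Real.sqrt D))| /
            Real.sqrt ((e : ℝ) ^ 2 * A) * (A : ℝ) ^ 2) := by ring
  have he : Uc m₁ m₂ D = ∑' y : ℕ × ℕ, kM D (m₁ * m₂) y.1 y.2 *
      ∏ p ∈ (y.2 * (m₁ * m₂)).primeFactors, loc (qT (chi p D) (tt p m₁ m₂)) p y.1 y.2 := by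
    unfold Uc
    exact tsum_congr fun y => utc_eq hRTS hD hD4 hDs h1 h2 y.1 y.2
  rw [he]
  exact hsum.hasSum

end Pool.Agent.H88.AD
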